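import Pool.Agent.H5.BallCover2

set_option autoImplicit false

namespace Pool.Agent.Results.MP_73700b_an.Hilbert

/-- In every infinite-dimensional real Hilbert space, every covering by closed balls of positive
radius has a point lying in infinitely many of the balls. -/
theorem result (H : Type*) [NormedAddCommGroup H] [InnerProductSpace ℝ H] [CompleteSpace H]
    (hH : ¬ FiniteDimensional ℝ H) (𝓑 : Set (Set H))
    (hball : ∀ B ∈ 𝓑, ∃ (c : H) (r : ℝ), 0 < r ∧ B = Metric.closedBall c r)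
    (hcov : ⋃₀ 𝓑 = Set.univ) :
    ∃ x : H, {B ∈ 𝓑 | x ∈ B}.Infinite := by
  by_contra h
  push Not at h
  choose c r hr hB using hball
  refine Pool.Agent.H5.BallCover.no_cover hH (ι := 𝓑) (fun B => c B.1 B.2) (fun B => r B.1 B.2)
    (fun B => hr B.1 B.2) (fun x => ?_) (fun x => ?_)
  · obtain ⟨B, hB1, hx⟩ : x ∈ ⋃₀ 𝓑 := hcov ▸ Set.mem_univ x
    refine ⟨⟨B, hB1⟩, ?_⟩
    rw [hB B hB1, Metric.mem_closedBall, dist_eq_norm] at hx
    exact hx
  · refine ((h x).preimage (f := (Subtype.val : 𝓑 → _))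
      Subtype.val_injective.injOn).subset fun B hk => ⟨B.2, ?_⟩
    rw [hB B.1 B.2, Metric.mem_closedBall, dist_eq_norm]
    exact hk

end Pool.Agent.Results.MP_73700b_an.Hilbert
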